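import Pool.Agent.Lib.TG_h80.HH

/-!
# TANK G: the interface PROJ (output of the blocks B + C, input of the blocks E + F)

`K / k` has transcendence degree `m + 1`; `b : Fin m → K`, `z : K` are the affine coordinates of a
projection to `P^(m+1)` (homogeneous coordinates `1, b, z`), followed by the projection to
`P^m` (homogeneous coordinates `1, b`) from the point `[0 : .. : 0 : 1]`; `L₀ = k(b)`, `K₀ = k(b, z)`.
Only the local degrees are controlled at all points; ramification and boundary are controlled at
the prime divisors where `b i`, `z`, `f(z)` and finitely many elements of `L₀` are units.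
-/

set_option autoImplicit false

namespace Pool.Agent.TG

open Pool.Agent.LU2 (locV)
open Polynomial

universe u

section Proj

variable {k K : Type u} [Field k] [Field K] [Algebra k K] {m : ℕ}

/-- `L₀ = k(b)`. -/
abbrev LB (k : Type u) {K : Type u} [Field k] [Field K] [Algebra k K] {m : ℕ} (b : Fin m → K) :
    IntermediateField k K := IntermediateField.adjoin k (Set.range b)

/-- `K₀ = k(b, z)`. -/
abbrev KB (k : Type u) {K : Type u} [Field k] [Field K] [Algebra k K] {m : ℕ} (b : Fin m → K)
    (z : K) : IntermediateField k K := IntermediateField.adjoin k (insert z (Set.range b))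

/-- The `k`-span of `S ⊆ K`, intersected with `E ⊆ K`, as a subspace of `E`. -/
def spn (E : IntermediateField k K) (S : Set K) : Submodule k E :=
  (Submodule.span k S).comap E.val.toLinearMap

/-- The model `P^m` of `L₀`: the span of `1, b`. -/
def PB (k : Type u) {K : Type u} [Field k] [Field K] [Algebra k K] {m : ℕ} (b : Fin m → K) :
    Submodule k (LB k b) := spn (LB k b) (insert 1 (Set.range b))

/-- The model `P^(m+1)` of `K₀`: the span of `1, z, b`. -/
def PP (k : Type u) {K : Type u} [Field k] [Field K] [Algebra k K] {m : ℕ} (b : Fin m → K)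
    (z : K) : Submodule k (KB k b z) := spn (KB k b z) (insert 1 (insert z (Set.range b)))

/-- `v` is a prime divisor of (the normalisation in `K` of) the affine space `Spec k[b, z]`:
`v ∩ K₀` is the local ring of a point, and it is not `K₀`. -/
structure PDiv (k : Type u) {K : Type u} [Field k] [Field K] [Algebra k K] {m : ℕ}
    (b : Fin m → K) (z : K) (v : ValuationSubring K) : Prop where
  ov : Ov k v
  b_mem : ∀ i, b i ∈ v
  z_mem : z ∈ v
  centre : ∀ x ∈ KB k b z, x ∈ v → x ∈ locV v (Algebra.adjoin k (insert z (Set.range b)))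
  ne : ∃ x ∈ KB k b z, x ∉ v

/-- At the prime divisor `v` the extension `K / k(b, z)` is unramified (derivations extend) and `v`
is the localisation of `A₀` at a height one prime. -/
structure Good (A₀ : Subalgebra k K) (b : Fin m → K) (z : K) (v : ValuationSubring K) : Prop where
  der : ∀ d : Derivation k K K, (∀ i, d (b i) ∈ v) → d z ∈ v → ∀ x ∈ v, d x ∈ v
  le : ∀ a ∈ A₀, a ∈ v
  loc : ∀ x ∈ v, x ∈ locV v A₀

/-- **PROJ**. `d` bounds the local degrees. -/
structure Proj (A₀ : Subalgebra k K) (d : ℕ) (b : Fin m → K) (z : K) (f : (LB k b)[X])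
    (C : Finset K) : Prop where
  ind : AlgebraicIndependent k b
  tr : Transcendental (LB k b) z
  fin : FiniteDimensional (KB k b z) K
  sep : Algebra.IsSeparable (KB k b z) K
  monic : f.Monic
  fsep : f.Separable
  C_mem : ∀ c ∈ C, c ∈ LB k b
  C_ne : ∀ c ∈ C, c ≠ 0
  /-- (H1) outside `f = 0` everything is good. -/
  good : ∀ v : ValuationSubring K, PDiv k b z v → v.valuation z = 1 →
    (∀ i, v.valuation (b i) = 1) → (∀ c ∈ C, v.valuation c = 1) →
    v.valuation (aeval z f) = 1 → Good A₀ b z v
  /-- (H2) the local degrees of `K` over `P^(m+1)`. -/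
  deg : ∀ v₀ : ValuationSubring (KB k b z), ZDim k v₀ → LDeg K v₀ (RV v₀ (PP k b z)) d
  /-- (H3) the orbits of the decomposition groups over `P^m` on the roots of `f`. -/
  orb : ∀ (L : Type u) [Field L] [Algebra k L] [Algebra (LB k b) L] [IsScalarTower k (LB k b) L]
    [FiniteDimensional (LB k b) L] [IsGalois (LB k b) L] (V : ValuationSubring L), ZDim k V →
    ∀ s : L, aeval s f = 0 →
      (MulAction.orbit (stab V (RV (V.comap (algebraMap (LB k b) L)) (PB k b))) s).ncard ≤ d

/-- The statement PROJ for all function fields of transcendence degree `m + 1` over `k`. -/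
def ProjStmt (k : Type u) [Field k] (m d : ℕ) : Prop :=
  ∀ (K : Type u) [Field K] [Algebra k K], (⊤ : IntermediateField k K).FG →
    Algebra.trdeg k K = ((m + 1 : ℕ) : Cardinal) →
    ∀ A₀ : Subalgebra k K, A₀.FG → (∀ x : K, IsIntegral A₀ x → x ∈ A₀) →
      (∀ x : K, ∃ a ∈ A₀, ∃ s ∈ A₀, s ≠ 0 ∧ x = a / s) →
      ∃ (b : Fin m → K) (z : K) (f : (LB k b)[X]) (C : Finset K), Proj A₀ d b z f C

/-- The form in which the blocks B + C produce PROJ: `Bad` is the finite set of the bad prime
divisors of `K` (boundary and ramification) which are trivial on `L₀` (the others, if any, are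
excluded by `C`), `M` the residue field of `v ∈ Bad` (or a subfield containing the residue `r` of
`z`). -/
structure ProjP (A₀ : Subalgebra k K) (d : ℕ) (b : Fin m → K) (z : K) (C : Finset K)
    (Bad : Set (ValuationSubring K)) : Prop where
  ind : AlgebraicIndependent k b
  tr : Transcendental (LB k b) z
  fin : FiniteDimensional (KB k b z) K
  sep : Algebra.IsSeparable (KB k b z) K
  C_mem : ∀ c ∈ C, c ∈ LB k b
  C_ne : ∀ c ∈ C, c ≠ 0
  bad_fin : Bad.Finite
  good : ∀ v : ValuationSubring K, PDiv k b z v → v.valuation z = 1 →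
    (∀ i, v.valuation (b i) = 1) → (∀ c ∈ C, v.valuation c = 1) → v ∉ Bad → Good A₀ b z v
  deg : ∀ v₀ : ValuationSubring (KB k b z), ZDim k v₀ → LDeg K v₀ (RV v₀ (PP k b z)) d
  bad_le : ∀ v ∈ Bad, ∀ x ∈ LB k b, x ∈ v
  bad : ∀ v ∈ Bad, ∃ (M : Type u) (_ : Field M) (_ : Algebra (LB k b) M) (r : M),
    FiniteDimensional (LB k b) M ∧ Algebra.IsSeparable (LB k b) M ∧
    (∀ v₀ : ValuationSubring (LB k b), ZDim k v₀ → LDeg M v₀ (RV v₀ (PB k b)) d) ∧
    v.valuation (aeval z (minpoly (LB k b) r)) < 1

end Proj

end Pool.Agent.TG
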