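import Pool.Agent.Lib.TG_h81.Proj

/-!
# TANK G: `ProjP → Proj`
-/

set_option autoImplicit false

namespace Pool.Agent.TG

open Pool.Agent.LU2 (locV)
open Polynomial

universe u

section ProjP

variable {k K : Type u} [Field k] [Field K] [Algebra k K] {m : ℕ}

/-- A product of different monic irreducible separable polynomials is separable. -/
theorem separable_prod_irred {F : Type u} [Field F] (T : Finset F[X])
    (hirr : ∀ g ∈ T, Irreducible g) (hm : ∀ g ∈ T, g.Monic) (hs : ∀ g ∈ T, g.Separable) :
    (∏ g ∈ T, g).Separable := by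
  refine separable_prod' (fun g hg g' hg' hne => ?_) fun g hg => hs g hg
  rcases EuclideanDomain.dvd_or_coprime g g' (hirr g hg) with h | h
  · exact absurd (eq_of_monic_of_associated (hm g hg) (hm g' hg')
      ((hirr g hg).associated_of_dvd (hirr g' hg') h)) hne
  · exact h

/-- The orbit bound on the roots of `g`. -/
def OrbB (k : Type u) {K : Type u} [Field k] [Field K] [Algebra k K] (b : Fin m → K) (d : ℕ)
    (g : (LB k b)[X]) : Prop :=
  ∀ (L : Type u) [Field L] [Algebra k L] [Algebra (LB k b) L] [IsScalarTower k (LB k b) L]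
    [FiniteDimensional (LB k b) L] [IsGalois (LB k b) L] (V : ValuationSubring L), ZDim k V →
    ∀ s : L, aeval s g = 0 →
      (MulAction.orbit (stab V (RV (V.comap (algebraMap (LB k b) L)) (PB k b))) s).ncard ≤ d

theorem mem_PB_one (b : Fin m → K) : (1 : LB k b) ∈ PB k b :=
  Submodule.subset_span (Set.mem_insert _ _)

theorem PB_fg (b : Fin m → K) : (PB k b).FG := by
  have h1 : FiniteDimensional k (Submodule.span k (insert 1 (Set.range b)) : Submodule k K) :=
    FiniteDimensional.span_of_finite k ((Set.finite_range b).insert 1)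
  have h2 : FiniteDimensional k (PB k b) := by
    let φ : PB k b →ₗ[k] (Submodule.span k (insert 1 (Set.range b)) : Submodule k K) :=
      ((LB k b).val.toLinearMap.comp (PB k b).subtype).codRestrict _ fun x => x.2
    refine FiniteDimensional.of_injective φ fun x y hxy => ?_
    have h3 : ((φ x : (Submodule.span k (insert 1 (Set.range b)) : Submodule k K)) : K) = φ y :=
      congrArg Subtype.val hxy
    exact Subtype.ext (Subtype.ext h3)
  exact (Submodule.fg_iff_finiteDimensional _).2 h2

theorem PB_isModel (b : Fin m → K) : IsModel (PB k b) :=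
  ⟨PB_fg b, fun h => one_ne_zero ((Submodule.mem_bot k).1 (h ▸ mem_PB_one b))⟩

theorem zdim_comap {F L : Type u} [Field F] [Field L] [Algebra k F] [Algebra k L] [Algebra F L]
    [IsScalarTower k F L] {V : ValuationSubring L} (hV : ZDim k V) :
    ZDim k (V.comap (algebraMap F L)) := by
  refine ⟨fun c => ?_, fun x hx => ?_⟩
  · change algebraMap F L (algebraMap k F c) ∈ V
    rw [← IsScalarTower.algebraMap_apply]
    exact hV.ov c
  · obtain ⟨c, hc⟩ := hV.res (algebraMap F L x) hx
    refine ⟨c, ?_⟩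
    rw [comap_lt_one, map_sub, ← IsScalarTower.algebraMap_apply]
    exact hc

theorem orbB_of_ldeg (b : Fin m → K) {d : ℕ} (M : Type u) [Field M] [Algebra (LB k b) M]
    [FiniteDimensional (LB k b) M] [Algebra.IsSeparable (LB k b) M] (r : M)
    (h : ∀ v₀ : ValuationSubring (LB k b), ZDim k v₀ → LDeg M v₀ (RV v₀ (PB k b)) d) :
    OrbB k b d (minpoly (LB k b) r) := by
  intro L _ _ _ _ _ _ V hV s hs
  have hz := zdim_comap (F := LB k b) hV
  have hmin : minpoly (LB k b) r = minpoly (LB k b) s :=
    minpoly.eq_of_irreducible_of_monic (minpoly.irreducible (Algebra.IsIntegral.isIntegral r))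
      hs (minpoly.monic (Algebra.IsIntegral.isIntegral r))
  refine orbit_le (V.comap (algebraMap (LB k b) L)) _ (RV_le hz.ov (PB_isModel b)) M
    (h _ hz) V rfl s r ?_
  rw [← hmin]
  exact minpoly.aeval _ _

theorem ProjP.exists_poly {A₀ : Subalgebra k K} {d : ℕ} {b : Fin m → K} {z : K} {C : Finset K}
    {Bad : Set (ValuationSubring K)} (h : ProjP A₀ d b z C Bad) (v : ValuationSubring K)
    (hv : v ∈ Bad) : ∃ g : (LB k b)[X], Irreducible g ∧ g.Monic ∧ g.Separable ∧ OrbB k b d g ∧
      v.valuation (aeval z g) < 1 := by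
  obtain ⟨M, _, _, r, h1, h2, h3, h4⟩ := h.bad v hv
  exact ⟨minpoly (LB k b) r, minpoly.irreducible (Algebra.IsIntegral.isIntegral r),
    minpoly.monic (Algebra.IsIntegral.isIntegral r), Algebra.IsSeparable.isSeparable _ r,
    orbB_of_ldeg b M r h3, h4⟩

/-- **The producers' form gives PROJ.** -/
theorem ProjP.proj {A₀ : Subalgebra k K} {d : ℕ} {b : Fin m → K} {z : K} {C : Finset K}
    {Bad : Set (ValuationSubring K)} (h : ProjP A₀ d b z C Bad) :
    ∃ f : (LB k b)[X], Proj A₀ d b z f C := by
  classical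
  choose! g hirr hmon hsep horb hval using h.exists_poly
  let T : Finset (LB k b)[X] := h.bad_fin.toFinset.image g
  have hT : ∀ q, q ∈ T ↔ ∃ v ∈ Bad, g v = q := by
    intro q
    simp only [T, Finset.mem_image, Set.Finite.mem_toFinset]
  have hTirr : ∀ q ∈ T, Irreducible q := fun q hq => by
    obtain ⟨v, hv, rfl⟩ := (hT q).1 hq
    exact hirr v hv
  have hTmon : ∀ q ∈ T, q.Monic := fun q hq => by
    obtain ⟨v, hv, rfl⟩ := (hT q).1 hq
    exact hmon v hv
  have hTsep : ∀ q ∈ T, q.Separable := fun q hq => by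
    obtain ⟨v, hv, rfl⟩ := (hT q).1 hq
    exact hsep v hv
  refine ⟨∏ q ∈ T, q, h.ind, h.tr, h.fin, h.sep, monic_prod_of_monic _ _ hTmon,
    separable_prod_irred T hTirr hTmon hTsep, h.C_mem, h.C_ne, ?_, h.deg, ?_⟩
  · intro v hv hz hb hC hf
    refine h.good v hv hz hb hC fun hbad => ?_
    have h1 : ∀ q : (LB k b)[X], v.valuation (aeval z q) ≤ 1 := fun q => by
      rw [ValuationSubring.valuation_le_one_iff, aeval_eq_sum_range]
      refine sum_mem fun i _ => ?_
      rw [Algebra.smul_def]
      exact mul_mem (h.bad_le v hbad _ (q.coeff i).2) (pow_mem hv.z_mem i)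
    have hgT : g v ∈ T := (hT _).2 ⟨v, hbad, rfl⟩
    rw [← Finset.mul_prod_erase T (fun q => q) hgT, map_mul, map_mul] at hf
    refine absurd hf (ne_of_lt ?_)
    exact mul_lt_one_of_lt_of_le (hval v hbad) (h1 _)
  · intro L _ _ _ _ _ _ V hV s hs
    rw [map_prod] at hs
    obtain ⟨q, hq, hq0⟩ := Finset.prod_eq_zero_iff.1 hs
    obtain ⟨v, hv, rfl⟩ := (hT q).1 hq
    exact horb v hv L V hV s hq0

end ProjP

end Pool.Agent.TG
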