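import Pool.Agent.Lib.TG_h81.Loc2
import Pool.Agent.Lib.ALL_h94.Adj

/-!
# TANK G, toolbox of PROJ (T1): the pointwise form of PROJ
-/

set_option autoImplicit false

namespace Pool.Agent.TG

open Pool.Agent.LU2 (locV)
open Pool.Agent.TG51 (InLoc valP mem_valP valuation_lt_one_iff mem_of_height_one
  algebraMap_mem_valP)
open Pool.Agent.ALLh94 (PExp mon coord_mem pexp_of_sep_adjoin exists_dual_of_pexp)
open Polynomial

universe u

section Loc

variable {k K : Type u} [Field k] [Field K] [Algebra k K] {m : ℕ}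

/-- The conditions on a ring `S`: a localisation of the normalisation of `k[b, z]` in which
`z`, `b i`, `C`, `f(z)` are units. -/
structure Outside (b : Fin m → K) (z : K) (f : (LB k b)[X]) (C : Finset K) (S : Subalgebra k K) :
    Prop where
  loc : LocOf (ncl (Abz k b z)) S
  z_inv : z⁻¹ ∈ S
  b_inv : ∀ i, (b i)⁻¹ ∈ S
  C_mem : ∀ c ∈ C, c ∈ S
  C_inv : ∀ c ∈ C, c⁻¹ ∈ S
  f_mem : aeval z f ∈ S
  f_inv : (aeval z f)⁻¹ ∈ S

variable {A₀ : Subalgebra k K} {d : ℕ} {b : Fin m → K} {z : K} {f : (LB k b)[X]} {C : Finset K}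
  {S : Subalgebra k K}

theorem Outside.Abz_le (hS : Outside b z f C S) : Abz k b z ≤ S := (le_ncl _).trans hS.loc.le

theorem Outside.z_mem (hS : Outside b z f C S) : z ∈ S :=
  hS.Abz_le (Algebra.subset_adjoin (Or.inl rfl))

theorem Outside.b_mem (hS : Outside b z f C S) (i : Fin m) : b i ∈ S :=
  hS.Abz_le (Algebra.subset_adjoin (Or.inr ⟨i, rfl⟩))

theorem Proj.isAlgebraic (h : Proj A₀ d b z f C) : Algebra.IsAlgebraic (KB k b z) K := by
  have := h.fin
  exact Algebra.IsAlgebraic.of_finite _ _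

theorem Proj.algInd (h : Proj A₀ d b z f C) : AlgebraicIndependent k (tt b z) :=
  algInd_tt h.ind h.tr

theorem Proj.b_ne (h : Proj A₀ d b z f C) (i : Fin m) : b i ≠ 0 := h.ind.ne_zero i

theorem Proj.z_ne (h : Proj A₀ d b z f C) : z ≠ 0 := h.algInd.ne_zero none

theorem Proj.f_ne (h : Proj A₀ d b z f C) : aeval z f ≠ 0 :=
  fun h0 => h.monic.ne_zero ((transcendental_iff.1 h.tr) f h0)

theorem Proj.exists_div (h : Proj A₀ d b z f C) (x : K) :
    ∃ a ∈ ncl (Abz k b z), ∃ s ∈ ncl (Abz k b z), x = a / s := by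
  obtain ⟨a, ha, s, hs, -, e⟩ := exists_div_ncl (Abz k b z) (Abz_isAlgebraic h.isAlgebraic x)
  exact ⟨a, ha, s, le_ncl _ hs, e⟩

theorem Outside.isFractionRing (hS : Outside b z f C S) (h : Proj A₀ d b z f C) :
    IsFractionRing S K := hS.loc.isFractionRing h.exists_div

theorem Outside.isNoetherianRing [PerfectField k] (hS : Outside b z f C S)
    (h : Proj A₀ d b z f C) (hK : (⊤ : IntermediateField k K).FG) : IsNoetherianRing S := by
  have := isNoetherianRing_ncl hK _ (Abz_fg b z) (Abz_isAlgebraic h.isAlgebraic)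
  exact hS.loc.isNoetherianRing

theorem Outside.isIntegrallyClosed (hS : Outside b z f C S) (h : Proj A₀ d b z f C) :
    IsIntegrallyClosed S := by
  have := isIntegrallyClosed_ncl (Abz k b z) (Abz_isAlgebraic h.isAlgebraic)
  exact hS.loc.isIntegrallyClosed

theorem val_eq_one_of_mem {v : ValuationSubring K} {x : K} (h0 : x ≠ 0) (h : x ∈ v)
    (h' : x⁻¹ ∈ v) : v.valuation x = 1 := by
  refine le_antisymm ((v.valuation_le_one_iff x).2 h) ?_
  have h1 := (v.valuation_le_one_iff x⁻¹).2 h'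
  rw [map_inv₀] at h1
  exact (inv_le_one₀ (zero_lt_iff.2 ((Valuation.ne_zero_iff _).2 h0))).1 h1

/-- The primes of height one of `S` are good. -/
theorem Outside.good [PerfectField k] (hS : Outside b z f C S) (h : Proj A₀ d b z f C)
    (hK : (⊤ : IntermediateField k K).FG) [IsFractionRing S K] [IsNoetherianRing S]
    [IsIntegrallyClosed S] (Q : Ideal S) [Q.IsPrime] (hQ : Q.height = 1) :
    Good A₀ b z (valP K Q hQ) := by
  have hSv : ∀ a (ha : a ∈ S), a ∈ valP K Q hQ := fun a ha =>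
    algebraMap_mem_valP (K := K) hQ (⟨a, ha⟩ : S)
  refine h.good _ (pdiv_valP hK h.algInd h.isAlgebraic hS.loc Q hQ)
    (val_eq_one_of_mem h.z_ne (hSv _ hS.z_mem) (hSv _ hS.z_inv))
    (fun i => val_eq_one_of_mem (h.b_ne i) (hSv _ (hS.b_mem i)) (hSv _ (hS.b_inv i)))
    (fun c hc => val_eq_one_of_mem (h.C_ne c hc) (hSv _ (hS.C_mem c hc)) (hSv _ (hS.C_inv c hc)))
    (val_eq_one_of_mem h.f_ne (hSv _ hS.f_mem) (hSv _ hS.f_inv))

/-- **The pointwise form of PROJ**: derivations which preserve the coordinates preserve `S`. -/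
theorem Proj.der_mem [PerfectField k] (h : Proj A₀ d b z f C)
    (hK : (⊤ : IntermediateField k K).FG) (hS : Outside b z f C S) (D : Derivation k K K)
    (hb : ∀ i, D (b i) ∈ S) (hz : D z ∈ S) : ∀ x ∈ S, D x ∈ S := by
  have i1 := hS.isFractionRing h
  have i2 := hS.isNoetherianRing h hK
  have i3 := hS.isIntegrallyClosed h
  intro x hx
  obtain ⟨a, ha⟩ := mem_of_height_one (A := S) (D x) fun Q hQ h1 => by
    have hSv : ∀ a (ha : a ∈ S), a ∈ valP K Q h1 := fun a ha =>
      algebraMap_mem_valP (K := K) h1 (⟨a, ha⟩ : S)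
    exact mem_valP.1 ((hS.good h hK Q h1).der D (fun i => hSv _ (hb i)) (hSv _ hz) x (hSv _ hx))
  rw [← ha]
  exact a.2

/-- **The pointwise form of PROJ**: `A₀ ≤ S`. -/
theorem Proj.le_of_outside [PerfectField k] (h : Proj A₀ d b z f C)
    (hK : (⊤ : IntermediateField k K).FG) (hS : Outside b z f C S) : A₀ ≤ S := by
  have i1 := hS.isFractionRing h
  have i2 := hS.isNoetherianRing h hK
  have i3 := hS.isIntegrallyClosed h
  intro x hx
  obtain ⟨a, ha⟩ := mem_of_height_one (A := S) x fun Q hQ h1 =>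
    mem_valP.1 ((hS.good h hK Q h1).le x hx)
  rw [← ha]
  exact a.2

end Loc

end Pool.Agent.TG
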