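import Pool.Agent.Lib.TG_h81.Loc

/-!
# TANK G, toolbox of PROJ (T1): PROJ for the localisations of the integral closure of `k[b, z]`
-/

set_option autoImplicit false

namespace Pool.Agent.TG

open Pool.Agent.LU2 (locV)
open Pool.Agent.TG51 (InLoc valP mem_valP valuation_lt_one_iff valP_ne_top eq_valP_of_le
  inv_mem_valP algebraMap_mem_valP mem_of_height_one)
open Polynomial

universe u

section Ncl

variable {k K : Type u} [Field k] [Field K] [Algebra k K]

theorem isFractionRing_of (S : Subalgebra k K) (h : ∀ x : K, ∃ a ∈ S, ∃ s ∈ S, x = a / s) :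
    IsFractionRing S K :=
  IsFractionRing.of_field S K fun x => by
    obtain ⟨a, ha, s, hs, e⟩ := h x
    exact ⟨⟨a, ha⟩, ⟨s, hs⟩, e⟩

theorem exists_div_ncl (A : Subalgebra k K) {x : K} (h : IsAlgebraic A x) :
    ∃ a ∈ ncl A, ∃ s ∈ A, s ≠ 0 ∧ x = a / s := by
  obtain ⟨y, hy0, hy⟩ := h.exists_integral_multiple
  have hy0' : (y : K) ≠ 0 := fun h0 => hy0 (Subtype.ext h0)
  refine ⟨y * x, ?_, y, y.2, hy0', ?_⟩
  · have h1 : y • x = y * x := rfl
    rw [← h1]
    exact hy
  · field_simp

theorem isFractionRing_ncl (A : Subalgebra k K) (h : ∀ x : K, IsAlgebraic A x) :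
    IsFractionRing (ncl A) K :=
  isFractionRing_of _ fun x => by
    obtain ⟨a, ha, s, hs, -, e⟩ := exists_div_ncl A (h x)
    exact ⟨a, ha, s, le_ncl A hs, e⟩

theorem isIntegrallyClosed_ncl (A : Subalgebra k K) (h : ∀ x : K, IsAlgebraic A x) :
    IsIntegrallyClosed (ncl A) := by
  have := isFractionRing_ncl A h
  refine (isIntegrallyClosed_iff K).2 fun {x} hx => ?_
  have h1 : x ∈ ncl (ncl A) := hx
  rw [ncl_ncl] at h1
  exact ⟨⟨x, h1⟩, rfl⟩

theorem isNoetherianRing_ncl [PerfectField k] (hK : (⊤ : IntermediateField k K).FG)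
    (A : Subalgebra k K) (hA : A.FG) (h : ∀ x : K, IsAlgebraic A x) :
    IsNoetherianRing (ncl A) := by
  have h1 : Module.Finite A (integralClosure A K) :=
    Pool.Agent.TGh68.finite_integralClosure hK A hA h
  have h2 : Algebra.FiniteType k A := (Subalgebra.fg_iff_finiteType A).1 hA
  have h3 : Algebra.FiniteType k (integralClosure A K) :=
    Algebra.FiniteType.trans h2 (Module.Finite.finiteType (integralClosure A K))
  exact Algebra.FiniteType.isNoetherianRing k (integralClosure A K)

theorem LocOf.isFractionRing {B S : Subalgebra k K} (h : LocOf B S)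
    (hB : ∀ x : K, ∃ a ∈ B, ∃ s ∈ B, x = a / s) : IsFractionRing S K :=
  isFractionRing_of _ fun x => by
    obtain ⟨a, ha, s, hs, e⟩ := hB x
    exact ⟨a, h.le ha, s, h.le hs, e⟩

end Ncl

section Coord

variable {k K : Type u} [Field k] [Field K] [Algebra k K] {m : ℕ}

/-- The coordinates `z, b`. -/
def tt (b : Fin m → K) (z : K) : Option (Fin m) → K := fun o => o.elim z b

omit [Field K] in
theorem range_tt (b : Fin m → K) (z : K) : Set.range (tt b z) = insert z (Set.range b) := by
  ext x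
  constructor
  · rintro ⟨_ | i, rfl⟩
    · exact Set.mem_insert _ _
    · exact Set.mem_insert_of_mem _ ⟨i, rfl⟩
  · rintro (rfl | ⟨i, rfl⟩)
    · exact ⟨none, rfl⟩
    · exact ⟨some i, rfl⟩

/-- The coordinate ring `k[b, z]`. -/
abbrev Abz (k : Type u) {K : Type u} [Field k] [Field K] [Algebra k K] (b : Fin m → K) (z : K) :
    Subalgebra k K := Algebra.adjoin k (insert z (Set.range b))

theorem Abz_fg (b : Fin m → K) (z : K) : (Abz k b z).FG :=
  ⟨((Set.finite_range b).insert z).toFinset, by rw [Set.Finite.coe_toFinset]⟩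

theorem algInd_tt {b : Fin m → K} {z : K} (hb : AlgebraicIndependent k b)
    (hz : Transcendental (LB k b) z) : AlgebraicIndependent k (tt b z) := by
  rw [show tt b z = fun o : Option (Fin m) => o.elim z b from rfl, hb.option_iff_transcendental]
  intro h
  apply hz
  have hle : Algebra.adjoin k (Set.range b) ≤ (LB k b).toSubalgebra :=
    IntermediateField.algebra_adjoin_le_adjoin k _
  let _ : Algebra (Algebra.adjoin k (Set.range b)) (LB k b) :=
    (Subalgebra.inclusion hle).toRingHom.toAlgebra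
  have htow : IsScalarTower (Algebra.adjoin k (Set.range b)) (LB k b) K :=
    IsScalarTower.of_algebraMap_eq fun _ => rfl
  exact IsAlgebraic.extendScalars (fun x y hxy => Subtype.ext (by
    have := congrArg (fun t : LB k b => (t : K)) hxy
    exact this)) h

theorem Abz_isIntegrallyClosed {b : Fin m → K} {z : K} (h : AlgebraicIndependent k (tt b z)) :
    IsIntegrallyClosed (Abz k b z) := by
  have h1 : IsIntegrallyClosed (Algebra.adjoin k (Set.range (tt b z))) :=
    IsIntegrallyClosed.of_equiv h.aevalEquiv.toRingEquiv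
  rwa [range_tt] at h1

theorem Abz_isAlgebraic {b : Fin m → K} {z : K} (h : Algebra.IsAlgebraic (KB k b z) K) (x : K) :
    IsAlgebraic (Abz k b z) x := by
  have hle : Abz k b z ≤ (KB k b z).toSubalgebra := IntermediateField.algebra_adjoin_le_adjoin k _
  let _ : Algebra (Abz k b z) (KB k b z) := (Subalgebra.inclusion hle).toRingHom.toAlgebra
  have htow : IsScalarTower (Abz k b z) (KB k b z) K := IsScalarTower.of_algebraMap_eq fun _ => rfl
  have halg : Algebra.IsAlgebraic (Abz k b z) (KB k b z) := by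
    refine ⟨fun y => ?_⟩
    obtain ⟨a, ha, c, hc, hac⟩ := IntermediateField.mem_adjoin_iff_div.1 y.2
    have h2 : IsAlgebraic (Abz k b z) (y : K) := by
      rw [hac, div_eq_mul_inv]
      exact (isAlgebraic_algebraMap (A := K) (⟨a, ha⟩ : Abz k b z)).mul
        (isAlgebraic_algebraMap (A := K) (⟨c, hc⟩ : Abz k b z)).inv
    exact (isAlgebraic_algebraMap_iff (algebraMap (KB k b z) K).injective).1 h2
  exact (h.isAlgebraic x).restrictScalars (Abz k b z)

/-- **The primes of height one of `S` are prime divisors.** -/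
theorem pdiv_valP [PerfectField k] (hK : (⊤ : IntermediateField k K).FG) {b : Fin m → K} {z : K}
    (hind : AlgebraicIndependent k (tt b z)) (halg : Algebra.IsAlgebraic (KB k b z) K)
    {S : Subalgebra k K} (hS : LocOf (ncl (Abz k b z)) S) [IsFractionRing S K]
    [IsNoetherianRing S] [IsIntegrallyClosed S] (Q : Ideal S) [Q.IsPrime] (hQ : Q.height = 1) :
    PDiv k b z (valP K Q hQ) := by
  have hAalg := Abz_isAlgebraic (b := b) (z := z) halg
  have hAS : Abz k b z ≤ S := (le_ncl _).trans hS.le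
  have hSv : ∀ a (ha : a ∈ S), a ∈ valP K Q hQ := fun a ha =>
    algebraMap_mem_valP (K := K) hQ (⟨a, ha⟩ : S)
  have hgen : ∀ x ∈ insert z (Set.range b), x ∈ Abz k b z := fun x hx => Algebra.subset_adjoin hx
  -- the prime of `k[b, z]`
  set B : Subalgebra k K := ncl (Abz k b z) with hB
  have hnB : IsNoetherianRing B := isNoetherianRing_ncl hK _ (Abz_fg b z) hAalg
  have hiA : IsIntegrallyClosed (Abz k b z) := Abz_isIntegrallyClosed hind
  have hnA : IsNoetherianRing (Abz k b z) := by
    have : Algebra.FiniteType k (Abz k b z) := (Subalgebra.fg_iff_finiteType _).1 (Abz_fg b z)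
    exact Algebra.FiniteType.isNoetherianRing k _
  let q : Ideal B := Q.comap (Subalgebra.inclusion hS.le)
  have hq : q.IsPrime := Ideal.IsPrime.comap _
  have hq1 : q.height = 1 := by rw [hS.height_comap, hQ]
  let iAB : Algebra (Abz k b z) B := (Subalgebra.inclusion (le_ncl (Abz k b z))).toRingHom.toAlgebra
  have hABmap : ∀ a : Abz k b z, ((algebraMap (Abz k b z) B a : B) : K) = a := fun _ => rfl
  have hABtow : IsScalarTower (Abz k b z) B K := IsScalarTower.of_algebraMap_eq fun _ => rfl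
  have hABint : Algebra.IsIntegral (Abz k b z) B := by
    refine ⟨fun x => ?_⟩
    have hx : IsIntegral (Abz k b z) (x : K) := x.2
    exact (isIntegral_algHom_iff (IsScalarTower.toAlgHom (Abz k b z) B K)
      Subtype.val_injective).1 hx
  have hABf : FaithfulSMul (Abz k b z) B :=
    (faithfulSMul_iff_algebraMap_injective _ _).2 fun x y hxy => Subtype.ext (by
      have := congrArg (fun t : B => (t : K)) hxy
      exact this)
  let 𝔭 : Ideal (Abz k b z) := q.comap (algebraMap (Abz k b z) B)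
  have h𝔭 : 𝔭.IsPrime := Ideal.IsPrime.comap _
  have hlies : q.LiesOver 𝔭 := ⟨rfl⟩
  have h𝔭0 : 𝔭 ≠ ⊥ := fun h0 => Ideal.ne_bot_of_height_eq_one hq1 (Ideal.eq_bot_of_comap_eq_bot h0)
  have h𝔭1 : 𝔭.height = 1 := by
    refine le_antisymm ?_ ?_
    · rw [← hq1, Ideal.height_eq_height_add_of_liesOver_of_hasGoingDown 𝔭 q]
      exact le_self_add
    · rw [Order.one_le_iff_ne_zero, Ne, Ideal.height_eq_zero_iff_eq_bot]
      exact h𝔭0
  have hmem𝔭 : ∀ a : Abz k b z, a ∈ 𝔭 ↔ (valP K Q hQ).valuation (a : K) < 1 := fun a => by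
    have h1 := valuation_lt_one_iff (K := K) hQ (⟨a, hAS a.2⟩ : S)
    exact h1.symm
  -- the field `K₀`
  have hAK : Abz k b z ≤ (KB k b z).toSubalgebra := IntermediateField.algebra_adjoin_le_adjoin k _
  let _ : Algebra (Abz k b z) (KB k b z) := (Subalgebra.inclusion hAK).toRingHom.toAlgebra
  have hAKmap : ∀ a : Abz k b z, ((algebraMap (Abz k b z) (KB k b z) a : KB k b z) : K) = a :=
    fun _ => rfl
  have hfaith : FaithfulSMul (Abz k b z) (KB k b z) :=
    (faithfulSMul_iff_algebraMap_injective _ _).2 fun x y hxy => Subtype.ext (by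
      have := congrArg (fun t : KB k b z => (t : K)) hxy
      exact this)
  have hfrac : IsFractionRing (Abz k b z) (KB k b z) :=
    IsFractionRing.of_field (Abz k b z) (KB k b z) fun x => by
      obtain ⟨a, ha, c, hc, e⟩ := IntermediateField.mem_adjoin_iff_div.1 x.2
      exact ⟨⟨a, ha⟩, ⟨c, hc⟩, Subtype.ext e⟩
  set v₀ : ValuationSubring (KB k b z) := (valP K Q hQ).comap (algebraMap (KB k b z) K) with hv₀
  have hle : valP (KB k b z) 𝔭 h𝔭1 ≤ v₀ := by
    intro x hx
    obtain ⟨a, s, hs, e⟩ := mem_valP.1 hx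
    change (x : K) ∈ valP K Q hQ
    have hs1 : (valP K Q hQ).valuation (s : K) = 1 := by
      refine le_antisymm ((ValuationSubring.valuation_le_one_iff _ _).2 (hSv _ (hAS s.2))) ?_
      exact not_lt.1 fun h => hs ((hmem𝔭 s).2 h)
    have e' : (x : K) * s = a := congrArg (fun t : KB k b z => (t : K)) e
    rw [← ValuationSubring.valuation_le_one_iff]
    have h1 : (valP K Q hQ).valuation (x : K) * (valP K Q hQ).valuation (s : K) =
        (valP K Q hQ).valuation (a : K) := by rw [← map_mul, e']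
    rw [hs1, mul_one] at h1
    rw [h1, ValuationSubring.valuation_le_one_iff]
    exact hSv _ (hAS a.2)
  obtain ⟨s, hs, hs0⟩ := (Submodule.ne_bot_iff _).1 h𝔭0
  have hs0' : (s : K) ≠ 0 := fun h0 => hs0 (Subtype.ext h0)
  have hsv : (s : K)⁻¹ ∉ valP K Q hQ := by
    rw [← ValuationSubring.valuation_le_one_iff, not_le, map_inv₀]
    exact (one_lt_inv₀ (zero_lt_iff.2 ((Valuation.ne_zero_iff _).2 hs0'))).2 ((hmem𝔭 s).1 hs)
  have hv₀top : v₀ ≠ ⊤ := by
    intro h0
    have h1 : (algebraMap (Abz k b z) (KB k b z) s)⁻¹ ∈ v₀ := by rw [h0]; trivial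
    exact hsv h1
  have heq := eq_valP_of_le (K := KB k b z) h𝔭1 v₀ hv₀top hle
  refine ⟨fun c => hSv _ (S.algebraMap_mem c), fun i => hSv _ (hAS (hgen _ (Or.inr ⟨i, rfl⟩))),
    hSv _ (hAS (hgen _ (Or.inl rfl))), ?_, ⟨(s : K)⁻¹, inv_mem (hAK s.2), hsv⟩⟩
  intro x hx hxv
  have h1 : (⟨x, hx⟩ : KB k b z) ∈ valP (KB k b z) 𝔭 h𝔭1 := by
    rw [← heq]
    exact hxv
  obtain ⟨a, t, ht, e⟩ := mem_valP.1 h1
  have e' : x * t = a := congrArg (fun t : KB k b z => (t : K)) e
  have ht1 : (valP K Q hQ).valuation (t : K) = 1 := by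
    refine le_antisymm ((ValuationSubring.valuation_le_one_iff _ _).2 (hSv _ (hAS t.2))) ?_
    exact not_lt.1 fun h => ht ((hmem𝔭 t).2 h)
  have ht0 : (t : K) ≠ 0 := by
    intro h0
    rw [h0, map_zero] at ht1
    exact zero_ne_one ht1
  exact ⟨a, a.2, t, t.2, ht1, by rw [← e']; field_simp⟩

end Coord

end Pool.Agent.TG
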