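import Pool.Agent.Lib.TG_h81.Proj
import Pool.Agent.Lib.TG_h51.KrullV
import Pool.Agent.Lib.TG_h68.FinClos
import Pool.Agent.Lib.TG.Basic

/-!
# TANK G, toolbox of PROJ (T1): localisations of the integral closure of `k[b, z]`
-/

set_option autoImplicit false

namespace Pool.Agent.TG

open Pool.Agent.LU2 (locV)
open Pool.Agent.TG51 (InLoc valP)
open Polynomial

universe u

section LocOf

variable {k K : Type u} [Field k] [Field K] [Algebra k K]

/-- `S` is a localisation of `B`. -/
structure LocOf (B S : Subalgebra k K) : Prop where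
  le : B ≤ S
  surj : ∀ s ∈ S, ∃ a ∈ B, ∃ t ∈ B, t ≠ 0 ∧ t⁻¹ ∈ S ∧ s = a / t

theorem LocOf.refl (B : Subalgebra k K) : LocOf B B :=
  ⟨le_rfl, fun s hs => ⟨s, hs, 1, B.one_mem, one_ne_zero, by rw [inv_one]; exact B.one_mem,
    by rw [div_one]⟩⟩

theorem LocOf.locV (V : ValuationSubring K) (B : Subalgebra k K) : LocOf B (locV V B) := by
  refine ⟨Pool.Agent.LU2.le_locV B, ?_⟩
  rintro s ⟨a, ha, t, ht, h1, rfl⟩
  have ht0 : t ≠ 0 := by
    rintro rfl
    rw [map_zero] at h1
    exact zero_ne_one h1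
  exact ⟨a, ha, t, ht, ht0, ⟨1, B.one_mem, t, ht, h1, by rw [one_div]⟩, rfl⟩

/-- The denominators. -/
def LocOf.den (B S : Subalgebra k K) : Submonoid B where
  carrier := {t | (t : K) ≠ 0 ∧ (t : K)⁻¹ ∈ S}
  one_mem' := ⟨one_ne_zero, by
    change ((1 : K))⁻¹ ∈ S
    rw [inv_one]; exact S.one_mem⟩
  mul_mem' := by
    rintro s t ⟨hs, hs'⟩ ⟨ht, ht'⟩
    refine ⟨mul_ne_zero hs ht, ?_⟩
    change ((s : K) * t)⁻¹ ∈ S
    rw [mul_inv]
    exact S.mul_mem hs' ht'

theorem LocOf.isLocalization {B S : Subalgebra k K} (h : LocOf B S) :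
    letI := (Subalgebra.inclusion h.le).toRingHom.toAlgebra
    IsLocalization (LocOf.den B S) S := by
  let _ := (Subalgebra.inclusion h.le).toRingHom.toAlgebra
  have hmap : ∀ x : B, ((algebraMap B S x : S) : K) = x := fun x => rfl
  refine ⟨⟨?_, ?_, ?_⟩⟩
  · rintro ⟨t, ht0, ht⟩
    refine IsUnit.of_mul_eq_one ⟨(t : K)⁻¹, ht⟩ (Subtype.ext ?_)
    change (t : K) * (t : K)⁻¹ = 1
    exact mul_inv_cancel₀ ht0
  · rintro ⟨s, hs⟩
    obtain ⟨a, ha, t, ht, ht0, hti, rfl⟩ := h.surj s hs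
    refine ⟨⟨⟨a, ha⟩, ⟨⟨t, ht⟩, ht0, hti⟩⟩, Subtype.ext ?_⟩
    change a / t * t = a
    field_simp
  · intro x y hxy
    refine ⟨1, ?_⟩
    have h1 : (x : K) = y := congrArg (fun s : S => (s : K)) hxy
    rw [Subtype.ext h1]

theorem LocOf.isNoetherianRing {B S : Subalgebra k K} (h : LocOf B S) [IsNoetherianRing B] :
    IsNoetherianRing S := by
  let _ := (Subalgebra.inclusion h.le).toRingHom.toAlgebra
  have := h.isLocalization
  exact IsLocalization.isNoetherianRing (LocOf.den B S) S inferInstance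

theorem LocOf.isIntegrallyClosed {B S : Subalgebra k K} (h : LocOf B S) [IsIntegrallyClosed B] :
    IsIntegrallyClosed S := by
  let _ := (Subalgebra.inclusion h.le).toRingHom.toAlgebra
  have := h.isLocalization
  refine isIntegrallyClosed_of_isLocalization S (LocOf.den B S) fun t ht => ?_
  exact mem_nonZeroDivisors_of_ne_zero fun h0 => ht.1 (by rw [h0]; rfl)

/-- The primes of height one of a localisation. -/
theorem LocOf.height_comap {B S : Subalgebra k K} (h : LocOf B S) (Q : Ideal S) :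
    (Q.comap (Subalgebra.inclusion h.le)).height = Q.height := by
  let _ := (Subalgebra.inclusion h.le).toRingHom.toAlgebra
  have := h.isLocalization
  exact IsLocalization.height_under (LocOf.den B S) Q

end LocOf

end Pool.Agent.TG
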