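import Pool.Agent.Lib.TG_h81.Loc3

/-!
# TANK G, toolbox of PROJ (T1): `p`-coordinates and regularity outside the boundary
-/

set_option autoImplicit false

namespace Pool.Agent.TG

open Pool.Agent.LU2 (locV)
open Pool.Agent.ALLh94 (PExp mon coord_mem pexp_of_sep_adjoin exists_dual_of_pexp)
open Polynomial

universe u

section PExp

variable {k K : Type u} [Field k] [Field K] [Algebra k K] {m : ℕ}
variable {A₀ : Subalgebra k K} {d : ℕ} {b : Fin m → K} {z : K} {f : (LB k b)[X]} {C : Finset K}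
  {S : Subalgebra k K}

theorem adjoin_range_tt (b : Fin m → K) (z : K) :
    IntermediateField.adjoin k (Set.range (tt b z)) = KB k b z := by rw [range_tt]

/-- `K = ∑ (b, z)^α K^p`. -/
theorem pexp_tt {p : ℕ} [Fact p.Prime] [CharP K p] (hk : ∀ c : k, ∃ e : k, e ^ p = c)
    (hsep : Algebra.IsSeparable (KB k b z) K) : PExp p (tt b z) (Set.univ : Set K) := by
  refine pexp_of_sep_adjoin hk (tt b z) ?_
  rw [adjoin_range_tt]
  exact hsep

/-- Derivations dual to `t` and stability under them give `p`-coordinates in `S`. -/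
theorem pexp_of_der {p : ℕ} [hp : Fact p.Prime] [CharP K p] [Algebra.EssFiniteType k K]
    {ι : Type} [Fintype ι] [DecidableEq ι] (hn : Algebra.trdeg k K = Fintype.card ι) (t : ι → K)
    (ht : PExp p t (Set.univ : Set K)) (S : Subalgebra k K) (htS : ∀ i, t i ∈ S)
    (hder : ∀ D : Derivation k K K, (∀ i, D (t i) ∈ S) → ∀ x ∈ S, D x ∈ S)
    (hroot : ∀ x : K, x ^ p ∈ S → x ∈ S) : PExp p t (S : Set K) := by
  obtain ⟨D, hD, -⟩ := exists_dual_of_pexp (k := k) hn t ht
  have hDS : ∀ i, ∀ x ∈ S, D i x ∈ S := fun i => hder (D i) fun j => by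
    rw [hD]
    split_ifs
    · exact S.one_mem
    · exact S.zero_mem
  intro x hx
  obtain ⟨c, -, rfl⟩ := ht x trivial
  exact ⟨c, fun α => coord_mem t (fun i => (D i).restrictScalars ℤ)
    (fun i j => hD i j) S.toSubring.toAddSubgroup (fun i a ha => hDS i a ha)
    (fun i a ha => S.mul_mem (htS i) ha) hroot c hx α, rfl⟩

/-- **`p`-coordinates of `S`.** -/
theorem Proj.pexp [PerfectField k] {p : ℕ} [hp : Fact p.Prime] [CharP K p]
    (hk : ∀ c : k, ∃ e : k, e ^ p = c)
    (h : Proj A₀ d b z f C) (hK : (⊤ : IntermediateField k K).FG)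
    (hn : Algebra.trdeg k K = ((m + 1 : ℕ) : Cardinal))
    (hS : Outside b z f C S) : PExp p (tt b z) (S : Set K) := by
  have hess : Algebra.EssFiniteType k K := IntermediateField.fg_top_iff.1 hK
  refine pexp_of_der (k := k) ?_ (tt b z) (pexp_tt hk h.sep) S ?_ ?_ ?_
  · rw [hn, Fintype.card_option, Fintype.card_fin]
  · rintro (_ | i)
    · exact hS.z_mem
    · exact hS.b_mem i
  · intro D hD
    exact h.der_mem hK hS D (fun i => hD (some i)) (hD none)
  · intro x hx
    have i1 := hS.isFractionRing h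
    have i3 := hS.isIntegrallyClosed h
    have h1 : IsIntegral S x := IsIntegral.of_pow hp.out.pos
      (isIntegral_algebraMap (R := S) (A := K) (x := (⟨x ^ p, hx⟩ : S)))
    obtain ⟨y, hy⟩ := (isIntegrallyClosed_iff K).1 i3 h1
    rw [← hy]
    exact y.2

end PExp

section Gen

variable {k K : Type u} [Field k] [Field K] [Algebra k K]

/-- `p`-coordinates with parameters of positive value: the parameters generate the maximal ideal. -/
theorem gen_of_pexp {V : ValuationSubring K} {S : Subalgebra k K} [IsNoetherianRing S]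
    (hSV : ∀ a ∈ S, a ∈ V) (hinv : ∀ f ∈ S, V.valuation f = 1 → f⁻¹ ∈ S) {p : ℕ}
    [hp : Fact p.Prime] {ι : Type} [Fintype ι] [DecidableEq ι] (τ : ι → K) (hτ : ∀ i, τ i ∈ S)
    (hpos : ∀ i, V.valuation (τ i) < 1) (hexp : PExp p τ (S : Set K)) :
    ∀ f ∈ S, V.valuation f < 1 → f ∈ Submodule.span S (Set.range τ) := by
  classical
  have hle : ∀ a : S, V.valuation (a : K) ≤ 1 := fun a => (V.valuation_le_one_iff _).2 (hSV a a.2)
  have hunit : ∀ a : S, V.valuation (a : K) = 1 → IsUnit a := fun a h1 =>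
    IsUnit.of_mul_eq_one ⟨(a : K)⁻¹, hinv a a.2 h1⟩ (Subtype.ext (mul_inv_cancel₀ (by
      intro h0
      rw [h0, map_zero] at h1
      exact zero_ne_one h1)))
  let 𝔪 : Ideal S :=
    { carrier := {a | V.valuation (a : K) < 1}
      add_mem' := fun {a b} ha hb => V.valuation.map_add_lt ha hb
      zero_mem' := by
        change V.valuation ((0 : S) : K) < 1
        rw [ZeroMemClass.coe_zero, map_zero]
        exact zero_lt_one
      smul_mem' := fun c a ha => by
        change V.valuation ((c : K) * a) < 1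
        rw [map_mul, mul_comm]
        exact mul_lt_one_of_lt_of_le ha (hle c) }
  have hmem : ∀ a : S, a ∈ 𝔪 ↔ V.valuation (a : K) < 1 := fun _ => Iff.rfl
  let I : Ideal S := Ideal.span (Set.range fun i => (⟨τ i, hτ i⟩ : S))
  have hτI : ∀ i, (⟨τ i, hτ i⟩ : S) ∈ I := fun i => Ideal.subset_span ⟨i, rfl⟩
  have hI𝔪 : I ≤ 𝔪 := Ideal.span_le.2 (by
    rintro _ ⟨i, rfl⟩
    exact hpos i)
  have hjac : 𝔪 ≤ Ideal.jacobson ⊥ := by
    intro a ha
    rw [Ideal.mem_jacobson_bot]
    intro c
    refine hunit _ ?_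
    have h1 : V.valuation ((a * c : S) : K) < 1 := by
      rw [mul_comm]
      exact 𝔪.mul_mem_left c ha
    change V.valuation (((a * c : S) : K) + 1) = 1
    rw [Valuation.map_add_eq_of_lt_right V.valuation (by rwa [map_one]), map_one]
  have hstep : 𝔪 ≤ I ⊔ 𝔪 • 𝔪 := by
    intro a ha
    obtain ⟨c, hc, e⟩ := hexp a a.2
    let α₀ : ι → Fin p := fun _ => ⟨0, hp.out.pos⟩
    have hmon : ∀ α : ι → Fin p, mon τ α ∈ S := fun α =>
      S.prod_mem fun i _ => S.pow_mem (hτ i) _
    let T : (ι → Fin p) → S := fun α => ⟨mon τ α * c α ^ p, S.mul_mem (hmon α) (S.pow_mem (hc α) _)⟩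
    have hT : a = ∑ α, T α := Subtype.ext (by
      rw [e, AddSubmonoidClass.coe_finsetSum])
    have hTI : ∀ α, α ≠ α₀ → T α ∈ I := by
      intro α hα
      obtain ⟨i, hi⟩ : ∃ i, (α i : ℕ) ≠ 0 := by
        by_contra h
        push Not at h
        exact hα (funext fun i => Fin.ext (h i))
      have h1 : T α = ⟨τ i, hτ i⟩ * (⟨τ i ^ ((α i : ℕ) - 1) *
          (∏ j ∈ Finset.univ.erase i, τ j ^ (α j : ℕ)) * c α ^ p,
          S.mul_mem (S.mul_mem (S.pow_mem (hτ i) _) (S.prod_mem fun j _ => S.pow_mem (hτ j) _))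
            (S.pow_mem (hc α) _)⟩ : S) := by
        apply Subtype.ext
        change mon τ α * c α ^ p = τ i * (τ i ^ ((α i : ℕ) - 1) *
          (∏ j ∈ Finset.univ.erase i, τ j ^ (α j : ℕ)) * c α ^ p)
        unfold mon
        rw [← Finset.mul_prod_erase Finset.univ _ (Finset.mem_univ i)]
        have h2 : τ i ^ (α i : ℕ) = τ i * τ i ^ ((α i : ℕ) - 1) := by
          rw [← pow_succ']
          congr 1
          omega
        rw [h2]
        ring
      rw [h1]
      exact I.mul_mem_right _ (hτI i)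
    have h0 : T α₀ = a - ∑ α ∈ Finset.univ.erase α₀, T α := by
      rw [hT, ← Finset.add_sum_erase Finset.univ T (Finset.mem_univ α₀)]
      ring
    have hrest : ∑ α ∈ Finset.univ.erase α₀, T α ∈ I :=
      I.sum_mem fun α hα => hTI α (Finset.ne_of_mem_erase hα)
    have hT0 : T α₀ ∈ 𝔪 := by
      rw [h0]
      exact 𝔪.sub_mem ha (hI𝔪 hrest)
    have hT0' : (T α₀ : K) = c α₀ ^ p := by
      change mon τ α₀ * c α₀ ^ p = c α₀ ^ p
      have : mon τ α₀ = 1 := Finset.prod_eq_one fun i _ => pow_zero _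
      rw [this, one_mul]
    have hc0 : (⟨c α₀, hc α₀⟩ : S) ∈ 𝔪 := by
      rw [hmem, hT0', map_pow] at hT0
      rw [hmem]
      by_contra h
      have h1 : V.valuation (c α₀) = 1 := le_antisymm (hle ⟨c α₀, hc α₀⟩) (not_lt.1 h)
      rw [h1, one_pow] at hT0
      exact lt_irrefl _ hT0
    have hT1 : T α₀ ∈ 𝔪 • 𝔪 := by
      have h1 : T α₀ = (⟨c α₀, hc α₀⟩ : S) • (⟨c α₀, hc α₀⟩ : S) ^ (p - 1) := by
        apply Subtype.ext
        rw [hT0']
        change c α₀ ^ p = c α₀ * c α₀ ^ (p - 1)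
        rw [← pow_succ']
        congr 1
        have := hp.out.pos
        omega
      rw [h1]
      refine Submodule.smul_mem_smul hc0 (Ideal.pow_mem_of_mem 𝔪 hc0 _ ?_)
      have := hp.out.two_le
      omega
    have h2 : a = ∑ α ∈ Finset.univ.erase α₀, T α + T α₀ := by rw [h0]; ring
    rw [h2]
    exact Submodule.add_mem_sup hrest hT1
  have hfin : 𝔪 ≤ I := Submodule.le_of_le_smul_of_le_jacobson_bot
    (IsNoetherian.noetherian 𝔪) hjac hstep
  intro f hf h1
  have h2 : (⟨f, hf⟩ : S) ∈ I := hfin h1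
  have h3 : Submodule.map (Algebra.linearMap S K) I ≤ Submodule.span S (Set.range τ) := by
    rw [show (I : Submodule S S) = Submodule.span S (Set.range fun i => (⟨τ i, hτ i⟩ : S)) from rfl,
      Submodule.map_span, ← Set.range_comp]
    rfl
  exact h3 (Submodule.mem_map_of_mem (f := Algebra.linearMap S K) h2)

end Gen

end Pool.Agent.TG
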